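import Pool.Agent.D0H93.PC.Stmt

set_option autoImplicit false

open Pool.Agent.D0H93.PC

/-!
# A gap law for the number of algebraic solutions, and amplification

Proof. Let `F` be the fundamental matrix of `M`, `K` the base field, `k` the field of constants. If a
quotient of entries of `F` is transcendental over `K`, there is a derivation `D` of `L` over `K` which does
not kill it, and `F⁻¹ D(F)` is not scalar. The derivations of `L` over `K` form a vector space over `L` on
which `δ` acts by the bracket, and `δ` acts on the matrices `F⁻¹ D(F)` by differentiation; a space of
vectors over `L` which is stable under differentiation is spanned by vectors with constant entries. So we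
can choose `D` such that `x = F⁻¹ D(F)` and `y = G⁻¹ D(G)`, `G` the fundamental matrix of `N`, have
constant entries, `x` not scalar. `D` kills all algebraic elements. So if `U = F^(⊗n) C Gᵀ` is an
algebraic solution, the constant tensor `C` is killed by `x^(n) + y`. On symmetric tensors, i.e. on
homogeneous polynomials of degree `n` in `r` variables with values in `k ^ s`, `x` acts by a linear
vector field which is not proportional to the Euler vector field. It is transversal to a hyperplane, and
a polynomial of the kernel which vanishes on this hyperplane is zero: the dimension of the kernel is at
most `s` times the number of monomials of degree `n` in `r - 1` variables. (In Lean: leading terms with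
respect to a grading for which the raising part of `x` is `X i₁ ∂ / ∂ X i₀`.) On all tensors the kernel
is bounded by the kernel of a raising operator, and this one by the middle coefficients of binomial type.

For the systems of the problem with few nonzero `p`-curvatures the traces of `b` and `c` are rational
(start library), so `det F` is algebraic, and projectively algebraic systems are algebraic. The
`p`-curvatures of the symmetric powers vanish too: the `p`-th power of `∇ ⊗ 1 + 1 ⊗ ∇` is
`∇ ^ p ⊗ 1 + 1 ⊗ ∇ ^ p` in characteristic `p`. The rank of the `n`-th symmetric power is about `n ^ (r - 1)`,
and `(r - 1) (multichoose r n) = (n + r - 1) (multichoose (r - 1) n)`: if it has at least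
`rank ^ (1 - ε)` algebraic solutions with `ε = 1 / (2 (r - 1))` and `n` large, the gap law says that all
solutions of the original system are algebraic.
-/

namespace Pool.Agent.Results.MP_5e5ff1_ag.AlgebraicSolutionsGap

/-- (1) Let `M`, `N` be linear differential systems of ranks `r`, `s` over a differential field `K` of
characteristic zero with constants `k` (with fundamental matrices over a differential field `L` with
the same constants). Either the quotients of the entries of the fundamental matrix of `M` are algebraic
over `K`, or for ALL `N` and ALL `n` the algebraic solutions of `N ⊗ Sym ^ n M` form a space of dimension at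
most `s * multichoose (r - 1) n`, which is `(r - 1) / (n + r - 1)` times the rank, and those of
`N ⊗ M ^ ⊗n` a space of dimension at most `√(r / (2 (n + 1)))` times the rank.

(2) Let `M` be a system `f' = (b / t + c / (t - 1)) f` of rank `r`, `b`, `c` with entries in a ring of
algebraic numbers, whose `p`-curvatures vanish except for a set of primes of lower density less than `1/4`.
Either all its solutions are algebraic over `K`, and then so are all the solutions of all the systems
`N ⊗ Sym ^ n M` and `N ⊗ M ^ ⊗n`, `N` algebraic; or the bounds of (1) hold for all `N` and `n`.

(3) Let `B`, `C` be matrices with algebraic entries such that all but finitely many `p`-curvatures of the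
system of the problem vanish. Either it has a full set of algebraic solutions, or for every `n` its `n`-th
symmetric power, of rank `multichoose r n`, has at most `multichoose (r - 1) n` linearly independent
algebraic solutions.

(4) Amplification: Grothendieck's conjecture for the systems of the problem is equivalent to the
following statement: for every `ε > 0` every system of the problem of rank `r ≥ R₀(ε)` with vanishing
`p`-curvatures has at least `r ^ (1 - ε)` linearly independent algebraic solutions. -/
theorem result :
    (∀ (k L : Type) [Field k] [Field L] [CharZero L] [Algebra k L] (X : DiffExt k L)
      (ι : Type) [Fintype ι] [DecidableEq ι] (M : LinSystem X ι), M.IsProjAlg ∨ M.Small) ∧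
    (∀ (k L : Type) [Field k] [Field L] [CharZero L] [Algebra k L] (X : DiffExt k L)
      (r : ℕ) (M : LinSystem X (Fin r)), StarFewBad M → M.Full ∨ M.Small) ∧
    (∀ (r : ℕ) (B C : Matrix (Fin r) (Fin r) ℂ), PZero B C →
      numAlg B C = r ∨ ∀ n, numAlg (symPow n B) (symPow n C) ≤ (r - 1).multichoose n) ∧
    ((∀ (r : ℕ) (B C : Matrix (Fin r) (Fin r) ℂ), PZero B C → numAlg B C = r) ↔
      ∀ ε : ℝ, 0 < ε → ∃ R₀ : ℕ, ∀ (r : ℕ) (B C : Matrix (Fin r) (Fin r) ℂ), R₀ ≤ r → PZero B C →
        (r : ℝ) ^ (1 - ε) ≤ numAlg B C) := by
  refine ⟨fun k L _ _ _ _ X ι _ _ M => ?_, fun k L _ _ _ _ X r M h => h.dichotomy,
    fun r B C h => h.gap, amplification⟩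
  by_cases h : M.IsProjAlg
  · exact Or.inl h
  · exact Or.inr (small_of_not h)

end Pool.Agent.Results.MP_5e5ff1_ag.AlgebraicSolutionsGap
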