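import Pool.Agent.D0H93.PC.DSum

set_option autoImplicit false

open Pool.Agent.D0H93.PC Matrix Module PowerSeries

/-!
# The transcendence degree of a solution bounds the number of algebraic solutions

Proof. Let `F`, `G` be the fundamental matrices of `M`, `N`, `K` the base field, `k` the field of constants.
The derivations `D` of `L` over `K` form a vector space over `L` on which `δ` acts by the bracket, and the
vectors `(F⁻¹ D(F), G⁻¹ D(G))` form a space `W` over `L` which is stable under `δ`, hence spanned by
vectors with constant entries (the Lie algebra). A solution of the dual system is `w = (F⁻¹)ᵀ ξ` with a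
constant vector `ξ`. If the quotients of the entries of `w` generate a field of transcendence degree at
least `d`, there are derivations `D₁, …, D_d` dual to `d` algebraically independent elements of this field.
A combination `D` of them for which `(F⁻¹ D(F))ᵀ ξ` is proportional to `ξ` multiplies `w` by a scalar, so it
kills the quotients, and is zero: the vectors `(F⁻¹ D_j(F))ᵀ ξ` are linearly independent modulo `ξ`, and
there are constant `x₁, …, x_d` in the Lie algebra such that `ξ, x₁ᵀ ξ, …, x_dᵀ ξ` are linearly independent
over `k`. An algebraic solution of `N ⊗ Sym ^ n M` is given by a constant symmetric tensor with values in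
`k ^ s`, i.e. by a vector of homogeneous polynomials `P` of degree `n` on the dual space, which is killed by
the linear vector fields of all `x_j` twisted by constant matrices. At the point `ξ` these vector fields and
the Euler vector field are linearly independent, so `P` is determined by its restriction to a linear
subspace of dimension `r - d` which is transversal to them at `ξ`: there are at most
`s * multichoose (r - d) n` of them. (In Lean: leading terms with respect to a grading.)

For the systems of the problem: the condition on the `p`-curvatures is stable under duals (Leibniz rule for
the pairing and `(d / dt) ^ p = 0`), direct sums and symmetric powers; the rank of `Sym ^ n` is of the order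
`n ^ (r - 1)` and the bound is of the order `n ^ (r - 1 - d)`.
-/

namespace Pool.Agent.Results.MP_5e5ff1_ag.TranscendenceDegreeLaw

/-- (1) Let `M`, `N` be linear differential systems of ranks `r`, `s` over a differential field `K` of
characteristic zero with constants `k` (with fundamental matrices over a differential field `L` with the
same constants). Let `w` be a solution of the dual system of `M` such that the quotients of the entries of
`w` generate over `K` a field of transcendence degree at least `d`. Then `d ≤ r - 1` (if `d ≠ 0`), and for
ALL `N` and ALL `n` the algebraic solutions of `N ⊗ Sym ^ n M` form a space of dimension at most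
`s * multichoose (r - d) n`, whereas the rank is `s * multichoose r n`.

(2) Let `B`, `C` be complex matrices of size `r` and `w` a solution of `w' = (B / t + C / (t - 1)) w` such
that the quotients of the entries of `w` generate a field of transcendence degree at least `d` over the field
of rational functions. Then for all `n` the `n`-th symmetric power of the dual system (its algebraic
solutions are the homogeneous forms of degree `n` with algebraic coefficients which are constant along all
solutions of the system of `w`) has at most `multichoose (r - d) n` linearly independent algebraic
solutions.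

(3) Suppose every system of the problem of large rank `R` with vanishing `p`-curvatures has at least
`R ^ (δ - o(1))` algebraic solutions. Then for every system of the problem of rank `r ≥ 1` with vanishing
`p`-curvatures and every family of `m ≥ 1` solutions the quotients of all the entries of the solutions
generate a field of transcendence degree at most `(1 - δ) (m r - 1)`. (`δ = 0` is trivial, `δ = 1` is
Grothendieck's conjecture.)

(4) Under the same hypothesis Grothendieck's conjecture holds for all systems of the problem of the ranks
`r` with `(1 - δ) (r - 1) < 1`. -/
theorem result :
    (∀ (k L : Type) [Field k] [Field L] [CharZero L] [Algebra k L] (X : DiffExt k L)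
      (σ ι : Type) [Fintype σ] [DecidableEq σ] [Fintype ι] [DecidableEq ι]
      (N : LinSystem X σ) (M : LinSystem X ι) (w : ι → L),
      (∀ i, X.δ (w i) = -(M.Aᵀ *ᵥ w) i) → ∀ d, HasDeg X w d →
      (0 < d → d + 1 ≤ Fintype.card ι) ∧
      ∀ n, finrank k (symSol N M n) ≤ Fintype.card σ * (Fintype.card ι - d).multichoose n) ∧
    (∀ (r : ℕ) (B C : Matrix (Fin r) (Fin r) ℂ) (w : Fin r → ℂ⟦X⟧), IsSol B C w →
      ∀ d, ProjDeg w d → ∀ n, numAlg (symPow n (-Bᵀ)) (symPow n (-Cᵀ)) ≤ (r - d).multichoose n) ∧
    ∀ δ : ℝ, ManyAlg δ →
      (∀ (m r : ℕ), 1 ≤ m → 1 ≤ r → ∀ B C : Matrix (Fin r) (Fin r) ℂ, PZero B C →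
        ∀ W : Fin m → Fin r → ℂ⟦X⟧, (∀ a, IsSol B C (W a)) →
          ∀ d, ProjDeg (fun p : Fin m × Fin r => W p.1 p.2) d → (d : ℝ) ≤ (1 - δ) * ((m : ℝ) * r - 1)) ∧
      ∀ r : ℕ, (1 - δ) * ((r : ℝ) - 1) < 1 → ∀ B C : Matrix (Fin r) (Fin r) ℂ, PZero B C →
        numAlg B C = r :=
  ⟨fun k L _ _ _ _ X σ ι _ _ _ _ N M w hw d hd =>
      ⟨fun h0 => degree_lt M hw hd h0, fun n => degree_law N M hw hd n⟩,
    fun r B C w hw d hd n => projDeg_law hw hd n,
    fun δ h => ⟨fun m r hm hr B C hBC W hW d hd => exponent_law_fam h hm hr hBC hW hd,
      fun r hr B C hBC => threshold h hr hBC⟩⟩

end Pool.Agent.Results.MP_5e5ff1_ag.TranscendenceDegreeLaw
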